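import Pool.Agent.L0h54.HV.Stm

set_option autoImplicit false

/-!
# Project HV (helper54), module DIA (helper91): the diagonal terms
-/

namespace Pool.Agent.L0h91.HV

open Finset
open scoped Classical
open Pool.Agent.L0h41.MQ (AP cf odd mem_AP)
open Pool.Agent.L0h54.HV
open ArithmeticFunction (vonMangoldt)

/-- the odd powers of `p` up to `z` -/
noncomputable def GG (z p : ℕ) : Finset ℕ :=
  (Ioc 0 z).filter (fun n => (IsPrimePow n ∧ ¬ IsSquare n) ∧ n.minFac = p)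

/-- the odd powers of `p` up to `z` in the class of `a` -/
noncomputable def GA (z q a p : ℕ) : Finset ℕ :=
  (AP 0 z q a).filter (fun n => (IsPrimePow n ∧ ¬ IsSquare n) ∧ n.minFac = p)

theorem mem_GG {z p n : ℕ} : n ∈ GG z p ↔ (0 < n ∧ n ≤ z) ∧ (IsPrimePow n ∧ ¬ IsSquare n) ∧ n.minFac = p := by
  unfold GG
  rw [mem_filter, mem_Ioc]

theorem mem_GA {z q a p n : ℕ} : n ∈ GA z q a p ↔ n ∈ GG z p ∧ n ≡ a [MOD q] := by
  unfold GA
  rw [mem_filter, mem_AP, mem_GG]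
  tauto

theorem xb {N n : ℕ} (f : ℕ → ℝ) (hf : ∀ n, |f n| ≤ 1) (h0 : 0 < n) (hn : n ≤ N) :
    |vonMangoldt n * f n| ≤ Real.log N := by
  have h3 : vonMangoldt n ≤ Real.log N := ArithmeticFunction.vonMangoldt_le_log.trans
    (Real.log_le_log (by exact_mod_cast h0) (by exact_mod_cast hn))
  have h0 : 0 ≤ Real.log N := le_trans ArithmeticFunction.vonMangoldt_nonneg h3
  rw [abs_mul, abs_of_nonneg ArithmeticFunction.vonMangoldt_nonneg]
  calc vonMangoldt n * |f n| ≤ Real.log N * 1 := mul_le_mul h3 (hf n) (abs_nonneg _) h0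
    _ = _ := mul_one _

/-- the square of a sum -/
theorem sq_sum_sub {G : Finset ℕ} (x : ℕ → ℝ) (L : ℝ) (hL : 0 ≤ L) (hx : ∀ n ∈ G, |x n| ≤ L) :
    |(∑ n ∈ G, x n) ^ 2 - ∑ n ∈ G, x n ^ 2| ≤ L ^ 2 * (G.offDiag.card : ℝ) := by
  have h1 : (∑ n ∈ G, x n) ^ 2 = ∑ n ∈ G, x n ^ 2 + ∑ w ∈ G.offDiag, x w.1 * x w.2 := by
    rw [sq, sum_mul_sum, ← sum_product', ← diag_union_offDiag, sum_union (disjoint_diag_offDiag G),
      sum_diag]
    congr 1
    exact sum_congr rfl fun n _ => (sq (x n)).symm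
  rw [h1, add_sub_cancel_left]
  refine (abs_sum_le_sum_abs _ _).trans ?_
  rw [mul_comm, ← nsmul_eq_mul]
  refine sum_le_card_nsmul _ _ _ fun w hw => ?_
  rw [mem_offDiag] at hw
  rw [abs_mul, sq]
  exact mul_le_mul (hx _ hw.1) (hx _ hw.2.1) (abs_nonneg _) hL

theorem GG_card {N z p : ℕ} (hz : z ≤ N) : (GG z p).card ≤ Nat.log 2 N + 1 := by
  have h4 : GG z p ⊆ (range (Nat.log 2 N + 1)).image (fun j => p ^ j) := by
    intro n hn
    rw [mem_GG] at hn
    obtain ⟨⟨h5, h6⟩, ⟨⟨r, j, hr, hj, hrj⟩, _⟩, h7⟩ := hn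
    rw [← Nat.prime_iff] at hr
    have h8 : r = p := by
      rw [← h7, ← hrj, hr.pow_minFac hj.ne']
    rw [mem_image]
    refine ⟨j, ?_, by rw [← h8, hrj]⟩
    rw [mem_range, Nat.lt_succ_iff]
    apply Nat.le_log_of_pow_le (by norm_num)
    calc 2 ^ j ≤ r ^ j := Nat.pow_le_pow_left hr.two_le j
      _ = n := hrj
      _ ≤ N := by omega
  have h5 := (card_le_card h4).trans card_image_le
  rwa [card_range] at h5

theorem GG_off {N z p : ℕ} (hz : z ≤ N) (hp : N < p * p) : (GG z p).offDiag = ∅ := by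
  have h1 : GG z p ⊆ {p} := by
    intro n hn
    rw [mem_GG] at hn
    obtain ⟨⟨h5, h6⟩, ⟨⟨r, j, hr, hj, hrj⟩, _⟩, h7⟩ := hn
    rw [← Nat.prime_iff] at hr
    have h8 : r = p := by
      rw [← h7, ← hrj, hr.pow_minFac hj.ne']
    rw [mem_singleton]
    have h9 : j = 1 := by
      by_contra hcon
      have h10 : 2 ≤ j := by omega
      have h11 : r ^ 2 ≤ r ^ j := Nat.pow_le_pow_right hr.pos h10
      rw [hrj, h8, sq] at h11
      omega
    rw [← hrj, h9, pow_one, h8]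
  rw [eq_empty_iff_forall_notMem]
  intro w hw
  rw [mem_offDiag] at hw
  have h2 := mem_singleton.1 (h1 hw.1)
  have h3 := mem_singleton.1 (h1 hw.2.1)
  exact hw.2.2 (h2.trans h3.symm)

theorem off_sum {N z p q : ℕ} (hz : z ≤ N) : ∑ a ∈ range q, (GA z q a p).offDiag.card ≤
    if p * p ≤ N then (Nat.log 2 N + 1) ^ 2 else 0 := by
  have h1 : ∑ a ∈ range q, (GA z q a p).offDiag.card ≤ (GG z p).offDiag.card := by
    rw [← card_biUnion]
    · apply card_le_card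
      intro w hw
      rw [mem_biUnion] at hw
      obtain ⟨a, _, hw⟩ := hw
      rw [mem_offDiag, mem_GA, mem_GA] at hw
      rw [mem_offDiag]
      exact ⟨hw.1.1, hw.2.1.1, hw.2.2⟩
    · intro a ha b hb hne
      rw [Function.onFun, disjoint_left]
      intro w hw hw'
      rw [mem_offDiag, mem_GA] at hw hw'
      apply hne
      rw [mem_coe, mem_range] at ha hb
      have h3 : a ≡ b [MOD q] := hw.1.2.symm.trans hw'.1.2
      exact Nat.ModEq.eq_of_lt_of_lt h3 ha hb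
  split_ifs with h
  · refine h1.trans ?_
    have h2 := GG_card (p := p) hz
    rw [offDiag_card, sq]
    exact (Nat.sub_le _ _).trans (Nat.mul_le_mul h2 h2)
  · rw [GG_off hz (by omega), card_empty] at h1
    exact h1

/-- all odd prime powers -/
theorem diag_sum {N z q : ℕ} (hz : z ≤ N) (hq : 1 ≤ q) (x : ℕ → ℝ) :
    ∑ a ∈ range q, ∑ p ∈ (Icc 1 N).filter Nat.Prime, ∑ n ∈ GA z q a p, x n =
      ∑ n ∈ (Icc 1 z).filter (fun n => IsPrimePow n ∧ ¬ IsSquare n), x n := by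
  have hmod : ∀ n ∈ (Icc 1 z).filter (fun n => IsPrimePow n ∧ ¬ IsSquare n), n % q ∈ range q := by
    intro n _
    rw [mem_range]
    exact Nat.mod_lt _ hq
  rw [← sum_fiberwise_of_maps_to hmod]
  refine sum_congr rfl fun a ha => ?_
  rw [mem_range] at ha
  have hmaps : ∀ n ∈ ((Icc 1 z).filter (fun n => IsPrimePow n ∧ ¬ IsSquare n)).filter (fun n => n % q = a),
      n.minFac ∈ (Icc 1 N).filter Nat.Prime := by
    intro n hn
    rw [mem_filter, mem_filter, mem_Icc] at hn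
    have hn1 : n ≠ 1 := hn.1.2.1.ne_one
    have hp := Nat.minFac_prime hn1
    rw [mem_filter, mem_Icc]
    exact ⟨⟨hp.one_lt.le, (Nat.minFac_le (by omega)).trans (by omega)⟩, hp⟩
  rw [← sum_fiberwise_of_maps_to hmaps]
  refine sum_congr rfl fun p _ => ?_
  refine sum_congr ?_ fun _ _ => rfl
  ext n
  rw [mem_GA, mem_GG, mem_filter, mem_filter, mem_filter, mem_Icc]
  have h1 : n ≡ a [MOD q] ↔ n % q = a := by
    unfold Nat.ModEq
    rw [Nat.mod_eq_of_lt ha]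
  rw [h1]
  constructor
  · rintro ⟨⟨⟨a1, a2⟩, a3, a4⟩, a5⟩
    exact ⟨⟨⟨⟨a1, a2⟩, a3⟩, a5⟩, a4⟩
  · rintro ⟨⟨⟨⟨a1, a2⟩, a3⟩, a5⟩, a4⟩
    exact ⟨⟨⟨a1, a2⟩, a3, a4⟩, a5⟩

/-- the squares -/
theorem sq_card {N z : ℕ} (hz : z ≤ N) :
    ((Icc 1 z).filter (fun n => IsSquare n)).card ≤ Nat.sqrt N := by
  have h1 : (Icc 1 z).filter (fun n => IsSquare n) ⊆ (Icc 1 (Nat.sqrt N)).image (fun m => m * m) := by
    intro n hn
    rw [mem_filter, mem_Icc] at hn
    obtain ⟨⟨h1, h2⟩, m, hm⟩ := hn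
    rw [mem_image]
    refine ⟨m, ?_, hm.symm⟩
    rw [mem_Icc]
    refine ⟨?_, ?_⟩
    · rcases Nat.eq_zero_or_pos m with h | h
      · rw [h] at hm
        omega
      · exact h
    · rw [Nat.le_sqrt]
      omega
  have h2 := (card_le_card h1).trans card_image_le
  rwa [Nat.card_Icc, Nat.add_sub_cancel] at h2

theorem sq_part {N z : ℕ} (hN : 2 ≤ N) (hz : z ≤ N) (f : ℕ → ℝ) (hf : ∀ n, |f n| ≤ 1) :
    |∑ n ∈ (Icc 1 z).filter (fun n => IsPrimePow n ∧ ¬ IsSquare n), (vonMangoldt n * f n) ^ 2 -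
      ∑ n ∈ Icc 1 z, (vonMangoldt n * f n) ^ 2| ≤ Real.log N ^ 2 * √N := by
  have h1 : ∑ n ∈ Icc 1 z, (vonMangoldt n * f n) ^ 2 =
      ∑ n ∈ (Icc 1 z).filter (fun n => IsPrimePow n ∧ ¬ IsSquare n), (vonMangoldt n * f n) ^ 2 +
      ∑ n ∈ (Icc 1 z).filter (fun n => ¬ (IsPrimePow n ∧ ¬ IsSquare n)), (vonMangoldt n * f n) ^ 2 :=
    (sum_filter_add_sum_filter_not _ _ _).symm
  have h2 : ∑ n ∈ (Icc 1 z).filter (fun n => ¬ (IsPrimePow n ∧ ¬ IsSquare n)), (vonMangoldt n * f n) ^ 2 ≤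
      ∑ n ∈ (Icc 1 z).filter (fun n => IsSquare n), Real.log N ^ 2 := by
    have h3 : ∑ n ∈ (Icc 1 z).filter (fun n => ¬ (IsPrimePow n ∧ ¬ IsSquare n)), (vonMangoldt n * f n) ^ 2 =
        ∑ n ∈ ((Icc 1 z).filter (fun n => ¬ (IsPrimePow n ∧ ¬ IsSquare n))).filter (fun n => IsSquare n),
          (vonMangoldt n * f n) ^ 2 := by
      symm
      apply sum_subset (filter_subset _ _)
      intro n hn hn2
      rw [mem_filter] at hn
      rw [mem_filter] at hn2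
      have h4 : ¬ IsSquare n := fun h => hn2 ⟨mem_filter.2 hn, h⟩
      have h5 : ¬ IsPrimePow n := fun h => hn.2 ⟨h, h4⟩
      rw [ArithmeticFunction.vonMangoldt_eq_zero_iff.2 h5, zero_mul]
      norm_num
    rw [h3]
    refine (sum_le_sum (g := fun _ => Real.log N ^ 2) fun n hn => ?_).trans
      (sum_le_sum_of_subset_of_nonneg ?_ fun _ _ _ => sq_nonneg _)
    · rw [mem_filter, mem_filter, mem_Icc] at hn
      have h6 := xb (N := N) f hf (by omega : 0 < n) (by omega)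
      rw [← sq_abs]
      exact pow_le_pow_left₀ (abs_nonneg _) h6 2
    · intro n hn
      rw [mem_filter, mem_filter] at hn
      rw [mem_filter]
      exact ⟨hn.1.1, hn.2⟩
  rw [sum_const, nsmul_eq_mul] at h2
  have h3 : 0 ≤ ∑ n ∈ (Icc 1 z).filter (fun n => ¬ (IsPrimePow n ∧ ¬ IsSquare n)), (vonMangoldt n * f n) ^ 2 :=
    sum_nonneg fun _ _ => sq_nonneg _
  rw [h1, abs_sub_comm, add_sub_cancel_left, abs_of_nonneg h3]
  refine h2.trans ?_
  rw [mul_comm]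
  refine mul_le_mul_of_nonneg_left ?_ (sq_nonneg _)
  refine le_trans (by exact_mod_cast sq_card hz) Real.nat_sqrt_le_real_sqrt

/-- **DIA** -/
theorem t_DIA : DIA := by
  refine ⟨20, by norm_num, ?_⟩
  intro N q z f hf hN hq hz
  have hN1 : (1 : ℝ) ≤ N := by exact_mod_cast (by omega : 1 ≤ N)
  have hlog0 : 0 ≤ Real.log N := Real.log_nonneg hN1
  have hlog2 : 0.69 ≤ Real.log N := by
    have h2 := Real.log_two_gt_d9
    have h3 : Real.log 2 ≤ Real.log N := Real.log_le_log (by norm_num) (by exact_mod_cast hN)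
    linarith
  have h1 := diag_sum (N := N) hz hq (fun n => (vonMangoldt n * f n) ^ 2)
  have h2 := sq_part hN hz f hf
  have h3 : |Dg N q 0 z f - ∑ a ∈ range q, ∑ p ∈ (Icc 1 N).filter Nat.Prime,
      ∑ n ∈ GA z q a p, (vonMangoldt n * f n) ^ 2| ≤
      Real.log N ^ 2 * (√N * (Nat.log 2 N + 1) ^ 2) := by
    unfold Dg
    rw [← sum_sub_distrib]
    refine (abs_sum_le_sum_abs _ _).trans ?_
    have h4 : ∀ a ∈ range q, |∑ p ∈ (Icc 1 N).filter Nat.Prime, cf 0 z q a f p ^ 2 -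
        ∑ p ∈ (Icc 1 N).filter Nat.Prime, ∑ n ∈ GA z q a p, (vonMangoldt n * f n) ^ 2| ≤
        ∑ p ∈ (Icc 1 N).filter Nat.Prime, Real.log N ^ 2 * ((GA z q a p).offDiag.card : ℝ) := by
      intro a _
      rw [← sum_sub_distrib]
      refine (abs_sum_le_sum_abs _ _).trans (sum_le_sum fun p _ => ?_)
      refine sq_sum_sub (fun n => vonMangoldt n * f n) (Real.log N) hlog0 fun n hn => ?_
      have h5 := mem_GG.1 (mem_GA.1 hn).1
      exact xb f hf h5.1.1 (by omega)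
    refine (sum_le_sum h4).trans ?_
    rw [sum_comm]
    have h5 : ∀ p ∈ (Icc 1 N).filter Nat.Prime, ∑ a ∈ range q, Real.log N ^ 2 * ((GA z q a p).offDiag.card : ℝ) ≤
        Real.log N ^ 2 * (if p * p ≤ N then ((Nat.log 2 N : ℝ) + 1) ^ 2 else 0) := by
      intro p _
      rw [← mul_sum]
      refine mul_le_mul_of_nonneg_left ?_ (sq_nonneg _)
      have h6 := off_sum (p := p) (q := q) hz
      have h7 : ((∑ a ∈ range q, (GA z q a p).offDiag.card : ℕ) : ℝ) ≤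
          ((if p * p ≤ N then (Nat.log 2 N + 1) ^ 2 else 0 : ℕ) : ℝ) := by exact_mod_cast h6
      push_cast at h7
      exact h7
    refine (sum_le_sum h5).trans ?_
    rw [← mul_sum]
    refine mul_le_mul_of_nonneg_left ?_ (sq_nonneg _)
    rw [← sum_filter, sum_const, nsmul_eq_mul]
    refine mul_le_mul_of_nonneg_right ?_ (sq_nonneg _)
    have h6 : (((Icc 1 N).filter Nat.Prime).filter (fun p => p * p ≤ N)).card ≤ Nat.sqrt N := by
      have h7 : (((Icc 1 N).filter Nat.Prime).filter (fun p => p * p ≤ N)) ⊆ Icc 1 (Nat.sqrt N) := by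
        intro p hp
        rw [mem_filter, mem_filter, mem_Icc] at hp
        rw [mem_Icc, Nat.le_sqrt]
        exact ⟨hp.1.1.1, hp.2⟩
      have h8 := card_le_card h7
      rwa [Nat.card_Icc, Nat.add_sub_cancel] at h8
    exact le_trans (by exact_mod_cast h6) Real.nat_sqrt_le_real_sqrt
  have h4 : (Nat.log 2 N : ℝ) + 1 ≤ 3 * Real.log N := by
    have hN0 : (0 : ℝ) < N := by linarith
    have h1 : (Nat.log 2 N : ℝ) * Real.log 2 ≤ Real.log N := by
      rw [← Real.log_pow]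
      apply Real.log_le_log (by positivity)
      exact_mod_cast Nat.pow_log_le_self 2 (by omega)
    have h2 := Real.log_two_gt_d9
    have h3 : Real.log 2 ≤ Real.log N := Real.log_le_log (by norm_num) (by exact_mod_cast hN)
    have h4 : (0 : ℝ) ≤ Nat.log 2 N := Nat.cast_nonneg _
    nlinarith
  rw [h1] at h3
  have h5 : |Dg N q 0 z f - ∑ n ∈ Icc 1 z, (vonMangoldt n * f n) ^ 2| ≤
      Real.log N ^ 2 * (√N * (Nat.log 2 N + 1) ^ 2) + Real.log N ^ 2 * √N :=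
    (abs_sub_le _ _ _).trans (add_le_add h3 h2)
  refine h5.trans ?_
  obtain ⟨L, hL⟩ : ∃ L, L = Real.log N := ⟨_, rfl⟩
  obtain ⟨s, hs⟩ : ∃ s, s = √(N : ℝ) := ⟨_, rfl⟩
  obtain ⟨m, hm⟩ : ∃ m, m = (Nat.log 2 N : ℝ) + 1 := ⟨_, rfl⟩
  have hm0 : 0 ≤ m := by
    rw [hm]
    positivity
  have hs0 : 0 ≤ s := by
    rw [hs]
    exact Real.sqrt_nonneg _
  rw [← hL] at h4 hlog2 hlog0 ⊢
  rw [← hs, ← hm]
  rw [← hm] at h4
  have h6 : m ^ 2 ≤ 9 * L ^ 2 := by
    calc m ^ 2 ≤ (3 * L) ^ 2 := pow_le_pow_left₀ hm0 h4 2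
      _ = _ := by ring
  have h7 : L ^ 2 * (s * m ^ 2) ≤ L ^ 2 * (s * (9 * L ^ 2)) := by gcongr
  have h8 : 0.69 * L ^ 4 ≤ L ^ 5 := by
    have : 0 ≤ L ^ 4 := by positivity
    nlinarith
  have h9 : 0.3 * L ^ 2 ≤ L ^ 5 := by
    have a1 : (0.69 : ℝ) ^ 3 ≤ L ^ 3 := pow_le_pow_left₀ (by norm_num) hlog2 3
    have a2 : 0 ≤ L ^ 2 := by positivity
    have a3 : (0.3 : ℝ) ≤ L ^ 3 := by norm_num at a1 ⊢; linarith
    calc 0.3 * L ^ 2 ≤ L ^ 3 * L ^ 2 := mul_le_mul_of_nonneg_right a3 a2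
      _ = L ^ 5 := by ring
  have h10 : L ^ 2 * (s * (9 * L ^ 2)) ≤ 13.1 * s * L ^ 5 := by
    have : 9 * L ^ 4 ≤ 13.1 * L ^ 5 := by nlinarith
    calc L ^ 2 * (s * (9 * L ^ 2)) = s * (9 * L ^ 4) := by ring
      _ ≤ s * (13.1 * L ^ 5) := mul_le_mul_of_nonneg_left this hs0
      _ = _ := by ring
  have h11 : L ^ 2 * s ≤ 3.4 * s * L ^ 5 := by
    have : L ^ 2 ≤ 3.4 * L ^ 5 := by nlinarith [sq_nonneg L]
    calc L ^ 2 * s ≤ 3.4 * L ^ 5 * s := mul_le_mul_of_nonneg_right this hs0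
      _ = _ := by ring
  have h12 : 0 ≤ s * L ^ 5 := by positivity
  linarith

end Pool.Agent.L0h91.HV
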