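import Pool.Agent.L0h54.HV.Stm

set_option autoImplicit false

/-!
# Project HV (helper54), module MAX (helper91): chaining
-/

namespace Pool.Agent.L0h91.HV

open Finset
open scoped Classical
open Pool.Agent.H306R2.RZ (js)
open Pool.Agent.L0h41.MQ (AP cf odd mem_AP)
open Pool.Agent.L0h54.HV
open ArithmeticFunction (vonMangoldt)

theorem cf_add {y z w q a : ℕ} (h1 : y ≤ z) (h2 : z ≤ w) (f : ℕ → ℝ) (p : ℕ) :
    cf y w q a f p = cf y z q a f p + cf z w q a f p := by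
  have e : AP y w q a = AP y z q a ∪ AP z w q a := by
    ext n
    rw [mem_union, mem_AP, mem_AP, mem_AP]
    constructor
    · rintro ⟨⟨a1, a2⟩, a3⟩
      rcases le_or_gt n z with h | h
      · exact Or.inl ⟨⟨a1, h⟩, a3⟩
      · exact Or.inr ⟨⟨h, a2⟩, a3⟩
    · rintro (⟨⟨a1, a2⟩, a3⟩ | ⟨⟨a1, a2⟩, a3⟩)
      · exact ⟨⟨a1, a2.trans h2⟩, a3⟩
      · exact ⟨⟨lt_of_le_of_lt h1 a1, a2⟩, a3⟩
  unfold cf
  rw [e, filter_union, sum_union]
  rw [disjoint_left]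
  intro n h3 h4
  rw [mem_filter, mem_AP] at h3 h4
  omega

theorem odd_add {N y z w q a : ℕ} (h1 : y ≤ z) (h2 : z ≤ w) (f : ℕ → ℝ) (l : ℕ) :
    odd N y w q a f l = odd N y z q a f l + odd N z w q a f l := by
  unfold odd
  rw [← sum_add_distrib]
  refine sum_congr rfl fun p _ => ?_
  rw [cf_add h1 h2, add_mul]

theorem odd_self (N y q a : ℕ) (f : ℕ → ℝ) (l : ℕ) : odd N y y q a f l = 0 := by
  have h := odd_add (N := N) (q := q) (a := a) (le_refl y) (le_refl y) f l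
  linarith

/-- the dyadic points -/
def pt (z j : ℕ) : ℕ := z / 2 ^ j * 2 ^ j

theorem pt_le (z j : ℕ) : pt z j ≤ z := Nat.div_mul_le_self _ _

theorem pt_zero (z : ℕ) : pt z 0 = z := by
  unfold pt
  simp

theorem pt_step (z j : ℕ) : pt z (j + 1) = pt z j ∨
    ∃ u, pt z (j + 1) = u * 2 ^ j ∧ pt z j = (u + 1) * 2 ^ j := by
  have h1 : z / 2 ^ (j + 1) = z / 2 ^ j / 2 := by
    rw [pow_succ, Nat.div_div_eq_div_mul]
  unfold pt
  rw [h1]
  obtain ⟨m, hm⟩ : ∃ m, m = z / 2 ^ j := ⟨_, rfl⟩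
  rw [← hm]
  rcases Nat.even_or_odd' m with ⟨k, h | h⟩
  · left
    have h2 : m / 2 = k := by omega
    rw [h2, h]
    ring
  · right
    have h2 : m / 2 = k := by omega
    refine ⟨2 * k, ?_, ?_⟩
    · rw [h2]
      ring
    · rw [h]

theorem pt_anti (z j : ℕ) : pt z (j + 1) ≤ pt z j := by
  rcases pt_step z j with h | ⟨u, h1, h2⟩
  · rw [h]
  · rw [h1, h2]
    exact Nat.mul_le_mul_right _ (Nat.le_succ u)

theorem odd_tel (N z q a : ℕ) (f : ℕ → ℝ) (l j : ℕ) :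
    odd N (pt z j) z q a f l = ∑ i ∈ range j, odd N (pt z (i + 1)) (pt z i) q a f l := by
  induction j with
  | zero => rw [pt_zero, odd_self, sum_range_zero]
  | succ j ih => rw [sum_range_succ, ← ih, odd_add (pt_anti z j) (pt_le z j), add_comm]

theorem sum2 (j : ℕ) : ∑ i ∈ range j, (2 : ℝ) ^ i ≤ 2 ^ j := by
  induction j with
  | zero => simp
  | succ j ih =>
    rw [sum_range_succ, pow_succ]
    linarith

/-- the perturbation of a sum of squares -/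
theorem pert {I : Finset ℕ} (A B : ℕ → ℝ) : |∑ a ∈ I, (A a + B a) ^ 2 - ∑ a ∈ I, A a ^ 2| ≤
    2 * √((∑ a ∈ I, A a ^ 2) * ∑ a ∈ I, B a ^ 2) + ∑ a ∈ I, B a ^ 2 := by
  have h1 : ∑ a ∈ I, (A a + B a) ^ 2 - ∑ a ∈ I, A a ^ 2 =
      2 * ∑ a ∈ I, A a * B a + ∑ a ∈ I, B a ^ 2 := by
    rw [← sum_sub_distrib, mul_sum, ← sum_add_distrib]
    refine sum_congr rfl fun a _ => ?_
    ring
  have h2 : |∑ a ∈ I, A a * B a| ≤ √((∑ a ∈ I, A a ^ 2) * ∑ a ∈ I, B a ^ 2) :=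
    Real.abs_le_sqrt (sum_mul_sq_le_sq_mul_sq I A B)
  have h3 : 0 ≤ ∑ a ∈ I, B a ^ 2 := sum_nonneg fun _ _ => sq_nonneg _
  rw [h1]
  refine (abs_add_le _ _).trans ?_
  rw [abs_mul, abs_of_nonneg h3, abs_two]
  linarith

/-- the last step of the computation -/
theorem fin_bound {r R J T SA SB : ℝ} (hr : 1 ≤ r) (hR : 0 ≤ R) (hJ : 0 ≤ J) (hT : 0 ≤ T) (hSA : 0 ≤ SA)
    (hSB : 0 ≤ SB) (h1 : SA ≤ 2 * r ^ 3 * R + T) (h2 : SB ≤ 2 * r ^ 4 * (T + J)) :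
    2 * √(SA * SB) + SB ≤ 6 * r ^ 4 * (√(R * (J + T)) + J + T) := by
  have hr0 : 0 ≤ r := by linarith
  have hr3 : 1 ≤ r ^ 3 := one_le_pow₀ hr
  have hr4 : 1 ≤ r ^ 4 := one_le_pow₀ hr
  have hr34 : r ^ 3 ≤ r ^ 4 := pow_le_pow_right₀ hr (by norm_num)
  have h3 : SA ≤ 2 * r ^ 4 * (R + (J + T)) := by
    have e1 : 2 * r ^ 3 * R ≤ 2 * r ^ 4 * R := by gcongr
    have e2 : T ≤ 2 * r ^ 4 * (J + T) := by nlinarith
    nlinarith
  have h4 : SA * SB ≤ (2 * r ^ 4) ^ 2 * (R * (J + T) + (J + T) ^ 2) := by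
    calc SA * SB ≤ (2 * r ^ 4 * (R + (J + T))) * (2 * r ^ 4 * (T + J)) :=
          mul_le_mul h3 h2 hSB (by positivity)
      _ = _ := by ring
  have h5 : √(SA * SB) ≤ 2 * r ^ 4 * (√(R * (J + T)) + (J + T)) := by
    refine (Real.sqrt_le_sqrt h4).trans ?_
    rw [Real.sqrt_mul (by positivity), Real.sqrt_sq (by positivity)]
    refine mul_le_mul_of_nonneg_left ?_ (by positivity)
    have h7 : 0 ≤ R * (J + T) := by positivity
    have h8 := Real.sq_sqrt h7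
    have h9 := Real.sqrt_nonneg (R * (J + T))
    have h10 : 0 ≤ J + T := by positivity
    rw [Real.sqrt_le_iff]
    refine ⟨by positivity, ?_⟩
    have h11 : 0 ≤ √(R * (J + T)) * (J + T) := mul_nonneg h9 h10
    nlinarith
  have h6 : 0 ≤ √(R * (J + T)) := Real.sqrt_nonneg _
  nlinarith

/-- **MAX** -/
theorem t_MAX (hK : KER) (hD : DIA) : MAX := by
  obtain ⟨CD, hCD, hD⟩ := hD
  refine ⟨8 + CD, by positivity, ?_⟩
  intro r j0 q f l T hf hr hj0 hq hl hRl hT H1 H2 z hz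
  obtain ⟨N, hN⟩ : ∃ N, N = 2 ^ r := ⟨_, rfl⟩
  have hN2 : 2 ≤ N := by
    rw [hN]
    calc 2 = 2 ^ 1 := rfl
      _ ≤ 2 ^ r := Nat.pow_le_pow_right (by norm_num) hr
  have hNr : (N : ℝ) = 2 ^ r := by
    rw [hN]
    push_cast
    rfl
  rw [← hN] at H1 H2 hz hRl ⊢
  rw [← hNr]
  have hr1 : (1 : ℝ) ≤ r := by exact_mod_cast hr
  have hr0 : (0 : ℝ) ≤ r := by linarith
  have hlog0 : 0 ≤ Real.log N := Real.log_nonneg (by exact_mod_cast (by omega : 1 ≤ N))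
  have hlogr : Real.log N ≤ r := by
    rw [hNr, Real.log_pow]
    have := Real.log_two_lt_d9
    nlinarith
  have hnl : (Nat.log 2 N : ℝ) = r := by
    rw [hN, Nat.log_pow (by norm_num)]
  obtain ⟨K, hKdef⟩ : ∃ K, K = Real.log N ^ 2 * ((Nat.log 2 N : ℝ) + 1) := ⟨_, rfl⟩
  have hK0 : 0 ≤ K := by
    rw [hKdef]
    positivity
  have hK2 : K ≤ 2 * (r:ℝ) ^ 3 := by
    rw [hKdef, hnl]
    calc Real.log N ^ 2 * ((r:ℝ) + 1) ≤ (r:ℝ) ^ 2 * (r + r) := by gcongr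
      _ = _ := by ring
  have hKER : ∀ y w, y ≤ w → w ≤ N → Dg N q y w f ≤ K * ((w : ℝ) - y) := by
    intro y w h1 h2
    rw [hKdef]
    exact (hK N q y w f hf hN2 hq h1 h2).2.2
  obtain ⟨J, hJ⟩ : ∃ J, J = (2 : ℝ) ^ j0 := ⟨_, rfl⟩
  have hJ0 : 0 ≤ J := by
    rw [hJ]
    positivity
  obtain ⟨z0, hz0⟩ : ∃ z0, z0 = pt z j0 := ⟨_, rfl⟩
  have hz0z : z0 ≤ z := by
    rw [hz0]
    exact pt_le z j0
  have hz0N : z0 ≤ N := hz0z.trans hz
  -- the blocks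
  have hblock : ∀ i ∈ range j0, ∑ a ∈ range q, odd N (pt z (i + 1)) (pt z i) q a f l ^ 2 ≤ T + K * 2 ^ i := by
    intro i hi
    rw [mem_range] at hi
    rcases pt_step z i with h | ⟨u, h1, h2⟩
    · rw [h]
      have : ∑ a ∈ range q, odd N (pt z i) (pt z i) q a f l ^ 2 = 0 := by
        refine sum_eq_zero fun a _ => ?_
        rw [odd_self]
        norm_num
      rw [this]
      positivity
    · rw [h1, h2]
      have h3 : (u + 1) * 2 ^ i ≤ N := by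
        rw [← h2]
        exact (pt_le z i).trans hz
      have h4 := H1 i hi.le u h3
      have h5 := hKER (u * 2 ^ i) ((u + 1) * 2 ^ i) (Nat.mul_le_mul_right _ (Nat.le_succ u)) h3
      have h6 : (((u + 1) * 2 ^ i : ℕ) : ℝ) - ((u * 2 ^ i : ℕ) : ℝ) = 2 ^ i := by
        push_cast
        ring
      rw [h6] at h5
      have h7 := (abs_le.1 h4).2
      unfold Vo at h7
      linarith
  -- the end part
  have hB : ∑ a ∈ range q, odd N z0 z q a f l ^ 2 ≤ 2 * (r:ℝ) ^ 4 * (T + J) := by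
    have h1 : ∀ a ∈ range q, odd N z0 z q a f l ^ 2 ≤
        j0 * ∑ i ∈ range j0, odd N (pt z (i + 1)) (pt z i) q a f l ^ 2 := by
      intro a _
      rw [hz0, odd_tel]
      have := sq_sum_le_card_mul_sum_sq (s := range j0)
        (f := fun i => odd N (pt z (i + 1)) (pt z i) q a f l)
      rwa [card_range] at this
    have h2 : ∑ a ∈ range q, odd N z0 z q a f l ^ 2 ≤ j0 * ∑ i ∈ range j0, (T + K * 2 ^ i) := by
      refine (sum_le_sum h1).trans ?_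
      rw [← mul_sum, sum_comm]
      exact mul_le_mul_of_nonneg_left (sum_le_sum hblock) (Nat.cast_nonneg _)
    refine h2.trans ?_
    rw [sum_add_distrib, sum_const, card_range, nsmul_eq_mul, ← mul_sum]
    have h3 := sum2 j0
    rw [← hJ] at h3
    have hj : (j0 : ℝ) ≤ r := by exact_mod_cast hj0
    have hj' : (0 : ℝ) ≤ j0 := Nat.cast_nonneg _
    calc (j0:ℝ) * (j0 * T + K * ∑ i ∈ range j0, (2:ℝ) ^ i) ≤ r * (r * T + (2 * (r:ℝ) ^ 3) * J) := by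
          gcongr
      _ = (r:ℝ) ^ 2 * T + 2 * (r:ℝ) ^ 4 * J := by ring
      _ ≤ 2 * (r:ℝ) ^ 4 * T + 2 * (r:ℝ) ^ 4 * J := by
          have : (r:ℝ) ^ 2 ≤ 2 * (r:ℝ) ^ 4 := by
            have e1 : (r:ℝ) ^ 2 ≤ (r:ℝ) ^ 4 := pow_le_pow_right₀ hr1 (by norm_num)
            have e2 : 0 ≤ (r:ℝ) ^ 4 := by positivity
            linarith
          gcongr
      _ = _ := by ring
  have h2u := H2 (z / 2 ^ j0) (by
    have := pt_le z j0
    unfold pt at this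
    exact this.trans hz)
  have hz0' : z / 2 ^ j0 * 2 ^ j0 = z0 := by
    rw [hz0]
    rfl
  rw [hz0'] at h2u
  have hDg := hKER 0 z0 (Nat.zero_le _) hz0N
  have hz0R : (z0 : ℝ) ≤ N := by exact_mod_cast hz0N
  have hA : ∑ a ∈ range q, odd N 0 z0 q a f l ^ 2 ≤ 2 * (r:ℝ) ^ 3 * N + T := by
    have h1 := (abs_le.1 h2u).2
    unfold Vo at h1
    have h2 : K * ((z0 : ℝ) - (0 : ℕ)) ≤ 2 * (r:ℝ) ^ 3 * N := by
      rw [Nat.cast_zero, sub_zero]
      gcongr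
    linarith
  have hpert := pert (I := range q) (fun a => odd N 0 z0 q a f l) (fun a => odd N z0 z q a f l)
  have hVo : Vo N q 0 z f l = ∑ a ∈ range q, (odd N 0 z0 q a f l + odd N z0 z q a f l) ^ 2 := by
    unfold Vo
    refine sum_congr rfl fun a _ => ?_
    rw [odd_add (Nat.zero_le z0) hz0z]
  have hb := fin_bound (r := (r:ℝ)) (R := (N:ℝ)) (J := J) (T := T) hr1 (Nat.cast_nonneg _) hJ0 hT
    (sum_nonneg fun a _ => sq_nonneg (odd N 0 z0 q a f l))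
    (sum_nonneg fun a _ => sq_nonneg (odd N z0 z q a f l)) hA hB
  have d1 : |Vo N q 0 z f l - Vo N q 0 z0 f l| ≤ 6 * (r:ℝ) ^ 4 * (√((N:ℝ) * (J + T)) + J + T) := by
    rw [hVo]
    exact hpert.trans hb
  have d3 : |Dg N q 0 z0 f - ∑ n ∈ Icc 1 z0, (vonMangoldt n * f n) ^ 2| ≤ CD * √N * (r:ℝ) ^ 5 := by
    refine (hD N q z0 f hf hN2 hq hz0N).trans ?_
    gcongr
  have d4 : |∑ n ∈ Icc 1 z0, (vonMangoldt n * f n) ^ 2 - ∑ n ∈ Icc 1 z, (vonMangoldt n * f n) ^ 2| ≤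
      (r:ℝ) ^ 2 * J := by
    have e1 : ∑ n ∈ Icc 1 z, (vonMangoldt n * f n) ^ 2 = ∑ n ∈ Icc 1 z0, (vonMangoldt n * f n) ^ 2 +
        ∑ n ∈ Ioc z0 z, (vonMangoldt n * f n) ^ 2 := by
      rw [← sum_union]
      · refine sum_congr ?_ fun _ _ => rfl
        ext n
        rw [mem_union, mem_Icc, mem_Icc, mem_Ioc]
        omega
      · rw [disjoint_left]
        intro n h1 h2
        rw [mem_Icc] at h1
        rw [mem_Ioc] at h2
        omega
    have e2 : ∑ n ∈ Ioc z0 z, (vonMangoldt n * f n) ^ 2 ≤ ((Ioc z0 z).card : ℝ) * (r:ℝ) ^ 2 := by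
      rw [← nsmul_eq_mul]
      refine sum_le_card_nsmul _ _ _ fun n hn => ?_
      rw [mem_Ioc] at hn
      rw [← sq_abs]
      refine pow_le_pow_left₀ (abs_nonneg _) ?_ 2
      have h3 : vonMangoldt n ≤ Real.log N := ArithmeticFunction.vonMangoldt_le_log.trans
        (Real.log_le_log (by exact_mod_cast (by omega : 0 < n)) (by exact_mod_cast (by omega : n ≤ N)))
      rw [abs_mul, abs_of_nonneg ArithmeticFunction.vonMangoldt_nonneg]
      calc vonMangoldt n * |f n| ≤ Real.log N * 1 := mul_le_mul h3 (hf n) (abs_nonneg _) hlog0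
        _ = Real.log N := mul_one _
        _ ≤ r := hlogr
    have e3 : ((Ioc z0 z).card : ℝ) ≤ J := by
      rw [Nat.card_Ioc, hJ]
      have h1 : z - z0 = z % 2 ^ j0 := by
        rw [← hz0']
        have := Nat.div_add_mod' z (2 ^ j0)
        omega
      have h2 : z - z0 ≤ 2 ^ j0 := by
        rw [h1]
        exact (Nat.mod_lt _ (by positivity)).le
      exact_mod_cast h2
    have e4 : 0 ≤ ∑ n ∈ Ioc z0 z, (vonMangoldt n * f n) ^ 2 := sum_nonneg fun _ _ => sq_nonneg _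
    rw [e1, abs_sub_comm, add_sub_cancel_left, abs_of_nonneg e4]
    refine e2.trans ?_
    rw [mul_comm]
    gcongr
  have hsum : |Vo N q 0 z f l - ∑ n ∈ Icc 1 z, (vonMangoldt n * f n) ^ 2| ≤
      6 * (r:ℝ) ^ 4 * (√((N:ℝ) * (J + T)) + J + T) + T + CD * √N * (r:ℝ) ^ 5 + (r:ℝ) ^ 2 * J := by
    have e : Vo N q 0 z f l - ∑ n ∈ Icc 1 z, (vonMangoldt n * f n) ^ 2 =
        (Vo N q 0 z f l - Vo N q 0 z0 f l) + (Vo N q 0 z0 f l - Dg N q 0 z0 f) +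
        (Dg N q 0 z0 f - ∑ n ∈ Icc 1 z0, (vonMangoldt n * f n) ^ 2) +
        (∑ n ∈ Icc 1 z0, (vonMangoldt n * f n) ^ 2 - ∑ n ∈ Icc 1 z, (vonMangoldt n * f n) ^ 2) := by ring
    rw [e]
    refine (abs_add_le _ _).trans (add_le_add ((abs_add_le _ _).trans (add_le_add ((abs_add_le _ _).trans
      (add_le_add d1 h2u)) d3)) d4)
  refine hsum.trans ?_
  rw [← hJ]
  obtain ⟨S, hS⟩ : ∃ S, S = √((N:ℝ) * (J + T)) := ⟨_, rfl⟩
  obtain ⟨s, hs⟩ : ∃ s, s = √(N:ℝ) := ⟨_, rfl⟩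
  have hS0 : 0 ≤ S := by
    rw [hS]
    exact Real.sqrt_nonneg _
  have hs0 : 0 ≤ s := by
    rw [hs]
    exact Real.sqrt_nonneg _
  rw [← hS, ← hs]
  have p6 : (1 : ℝ) ≤ (r:ℝ) ^ 6 := one_le_pow₀ hr1
  have p46 : (r:ℝ) ^ 4 ≤ (r:ℝ) ^ 6 := pow_le_pow_right₀ hr1 (by norm_num)
  have p56 : (r:ℝ) ^ 5 ≤ (r:ℝ) ^ 6 := pow_le_pow_right₀ hr1 (by norm_num)
  have p26 : (r:ℝ) ^ 2 ≤ (r:ℝ) ^ 6 := pow_le_pow_right₀ hr1 (by norm_num)
  obtain ⟨P, hP⟩ : ∃ P, P = (r:ℝ) ^ 6 := ⟨_, rfl⟩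
  rw [← hP] at p6 p46 p56 p26 ⊢
  have q1 : 6 * (r:ℝ) ^ 4 * (S + J + T) ≤ 6 * P * (S + J + T) := by gcongr
  have q2 : T ≤ P * T := le_mul_of_one_le_left hT p6
  have q3 : CD * s * (r:ℝ) ^ 5 ≤ CD * s * P := by gcongr
  have q4 : (r:ℝ) ^ 2 * J ≤ P * J := by gcongr
  have hP0 : 0 ≤ P := by linarith
  have q5 : 0 ≤ P * S := by positivity
  have q6 : 0 ≤ P * J := by positivity
  have q7 : 0 ≤ P * T := by positivity
  have q8 : 0 ≤ P * s := by positivity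
  have q9 : 0 ≤ CD * (P * S) := by positivity
  have q10 : 0 ≤ CD * (P * J) := by positivity
  have q11 : 0 ≤ CD * (P * T) := by positivity
  have e : (8 + CD) * P * (S + J + T + s) = 8 * (P * S) + 8 * (P * J) + 8 * (P * T) + 8 * (P * s) +
      CD * (P * S) + CD * (P * J) + CD * (P * T) + CD * s * P := by ring
  rw [e]
  have e2 : 6 * P * (S + J + T) = 6 * (P * S) + 6 * (P * J) + 6 * (P * T) := by ring
  rw [e2] at q1
  linarith

end Pool.Agent.L0h91.HV
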